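import Pool.Agent.W880.GY.Stm

set_option autoImplicit false

namespace Pool.Agent.W268.GYB

open Pool.Agent.W660.FL Pool.Agent.W660.GY Pool.Agent.W880.GY
open Filter Topology

namespace SJ

variable {G : Type} [Group G] [TopologicalSpace G]

theorem one_zero {X : ℝ → G} (h : IsOne X) : X 0 = 1 := by
  have := h.2 0 0
  simp at this
  exact this

theorem one_pow {X : ℝ → G} (h : IsOne X) (t : ℝ) (n : ℕ) : X t ^ n = X (n * t) := by
  induction n with
  | zero => simp [one_zero h]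
  | succ n ih =>
    rw [pow_succ, ih, ← h.2]
    congr 1
    push_cast
    ring

end SJ

theorem t_SJ : S_BASE → S_GL → S_A3 → S_N2 → S_LE → S_BL → S_FD → S_SJ := by
  intro hBase hGL hA3 hN2 hLE hBL hFD G _ _ _ _ _ ν hν E _ _ L r hr
  obtain ⟨hcont, -, hnn, hbase⟩ := hBase G ν hν
  obtain ⟨εA, hεA, KA, hKA, A3⟩ := hA3 G ν hν
  obtain ⟨εL, hεL, KL, hKL, LE⟩ := hLE G ν hν E L
  obtain ⟨εB, hεB, KB, hKB, BL⟩ := hBL G ν hν E L
  haveI : FiniteDimensional ℝ E := hFD G ν hν E L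
  haveI : ProperSpace E := FiniteDimensional.proper_real E
  obtain ⟨ρ, hρ0, hρr, hρB, hρL⟩ : ∃ ρ : ℝ, 0 < ρ ∧ ρ ≤ r ∧ ρ ≤ εB ∧ ρ ≤ εL :=
    ⟨min r (min εB εL), lt_min hr (lt_min hεB hεL), min_le_left _ _,
      (min_le_right _ _).trans (min_le_left _ _), (min_le_right _ _).trans (min_le_right _ _)⟩
  by_contra hcon
  push Not at hcon
  have hseq : ∀ i : ℕ, ∃ g : G, ν g < 1 / ((i : ℝ) + 1) ∧ ∀ x : E, ‖x‖ ≤ r → L.ev x 1 ≠ g :=
    fun i => hcon _ (by positivity)
  choose g hg1 hg2 using hseq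
  have hev : ContinuousOn (fun x : E => L.ev x 1) (Metric.closedBall 0 ρ) := by
    intro x hx
    refine (hbase E (𝓝[Metric.closedBall 0 ρ] x) (fun x => L.ev x 1) (L.ev x 1)).2 ?_
    have hx' : ‖x‖ ≤ ρ := by simpa using hx
    have hc : Continuous fun y : E => KB * ‖x - y‖ := by fun_prop
    have hc' := (hc.tendsto x).mono_left (nhdsWithin_le_nhds (s := Metric.closedBall 0 ρ))
    simp only [sub_self, norm_zero, mul_zero] at hc'
    refine squeeze_zero' (Eventually.of_forall fun y => hnn _) ?_ hc'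
    filter_upwards [self_mem_nhdsWithin] with y hy
    have hy' : ‖y‖ ≤ ρ := by simpa using hy
    exact (BL x y (hx'.trans hρB) (hy'.trans hρB)).2
  have hmin : ∀ i, ∃ x ∈ Metric.closedBall (0 : E) ρ,
      IsMinOn (fun y => ν ((L.ev y 1)⁻¹ * g i)) (Metric.closedBall (0 : E) ρ) x := fun i =>
    (isCompact_closedBall (0 : E) ρ).exists_isMinOn ⟨0, by simp [hρ0.le]⟩
      (hcont.comp_continuousOn ((hev.inv).mul continuousOn_const))
  choose x hxm hxmin using hmin
  have hev0 : L.ev 0 1 = 1 := by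
    have := L.smul 0 0 1
    rw [zero_smul, zero_mul, SJ.one_zero (L.one 0)] at this
    exact this
  set k : ℕ → G := fun i => (L.ev (x i) 1)⁻¹ * g i with hk
  set d : ℕ → ℝ := fun i => ν (k i) with hd
  have hxr : ∀ i, ‖x i‖ ≤ ρ := fun i => by simpa using hxm i
  have hdpos : ∀ i, 0 < d i := by
    intro i
    refine hν.pos _ ?_
    intro h
    refine hg2 i (x i) ((hxr i).trans hρr) ?_
    have h2 : (L.ev (x i) 1)⁻¹ * g i = 1 := h
    exact (inv_mul_eq_one.1 h2)
  have hdle : ∀ i, d i ≤ ν (g i) := by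
    intro i
    have h := hxmin i (show (0 : E) ∈ Metric.closedBall (0 : E) ρ by simp [hρ0.le])
    have h' : ν ((L.ev (x i) 1)⁻¹ * g i) ≤ ν ((L.ev 0 1)⁻¹ * g i) := h
    rw [hev0, inv_one, one_mul] at h'
    exact h'
  have hevx : ∀ i, ν (L.ev (x i) 1) ≤ 2 * ν (g i) := by
    intro i
    have h1 : L.ev (x i) 1 = g i * (k i)⁻¹ := by simp [hk]
    have h2 := hν.mul (g i) (k i)⁻¹
    rw [← h1, hν.inv] at h2
    have := hdle i
    simp only [hd] at this
    linarith
  have hxle : ∀ i, ‖x i‖ ≤ KB * (2 * ν (g i)) := by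
    intro i
    have h := (BL (x i) 0 ((hxr i).trans hρB) (by simpa using hεB.le)).1
    rw [sub_zero, hev0, mul_one, hν.inv] at h
    exact h.trans (mul_le_mul_of_nonneg_left (hevx i) hKB.le)
  have hgt : Tendsto (fun i => ν (g i)) atTop (𝓝 0) :=
    squeeze_zero (fun i => hnn _) (fun i => (hg1 i).le) tendsto_one_div_add_atTop_nhds_zero_nat
  have hF : ((hyperfilter ℕ : Ultrafilter ℕ) : Filter ℕ) ≤ atTop := Nat.hyperfilter_le_atTop
  have hdt : Tendsto d atTop (𝓝 0) := squeeze_zero (fun i => (hdpos i).le) hdle hgt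
  have hxt : Tendsto (fun i => ‖x i‖) atTop (𝓝 0) := by
    refine squeeze_zero (fun i => norm_nonneg _) hxle ?_
    simpa using (hgt.const_mul 2).const_mul KB
  set c : ℝ := εA / 2 with hc
  have hc0 : 0 < c := by positivity
  set N : ℕ → ℝ := fun i => c / d i with hN
  have hNpos : ∀ i, 0 < N i := fun i => div_pos hc0 (hdpos i)
  have hNtop : Tendsto N atTop atTop := by
    have h1 : Tendsto d atTop (𝓝[>] 0) :=
      tendsto_nhdsWithin_iff.2 ⟨hdt, Eventually.of_forall fun i => hdpos i⟩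
    have h2 := (tendsto_inv_nhdsGT_zero.comp h1).const_mul_atTop hc0
    refine h2.congr fun i => ?_
    simp [hN, div_eq_mul_inv]
  have hNd : ∀ i, N i * d i = c := fun i => by
    have := (hdpos i).ne'
    simp only [hN]
    field_simp
  obtain ⟨X, hX, hXb, hXl⟩ := hGL G ν hν ℕ (hyperfilter ℕ) k N c (hNtop.mono_left hF)
    (fun i => (hNd i).le)
  obtain ⟨w, hw⟩ := L.surj X hX
  have hwc : ‖w‖ ≤ c := by
    rw [L.norm, hw]
    refine (hN2 G ν hν X hX).2.2.2.1 c fun t ht => ?_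
    have := hXb t
    rwa [abs_of_pos ht] at this
  set n : ℕ → ℕ := fun i => ⌊N i⌋₊ with hn
  have h1 : Tendsto (fun i => (k i) ^ (n i)) (hyperfilter ℕ : Ultrafilter ℕ) (𝓝 (X 1)) := by
    refine (hXl 1).congr fun i => ?_
    rw [mul_one, ← zpow_natCast]
    congr 1
    exact Int.natCast_floor_eq_floor (hNpos i).le |>.symm
  have hnN : Tendsto (fun i => (n i : ℝ) / N i) (hyperfilter ℕ : Ultrafilter ℕ) (𝓝 1) :=
    (tendsto_nat_floor_div_atTop (R := ℝ)).comp (hNtop.mono_left hF)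
  have h2 : Tendsto (fun i => (X (1 / N i)) ^ (n i)) (hyperfilter ℕ : Ultrafilter ℕ)
      (𝓝 (X 1)) := by
    have := (hX.1.tendsto 1).comp hnN
    refine this.congr fun i => ?_
    rw [SJ.one_pow hX]
    simp only [Function.comp]
    congr 1
    ring
  have h3 : Tendsto (fun i => ν (((k i) ^ (n i))⁻¹ * (X (1 / N i)) ^ (n i)))
      (hyperfilter ℕ : Ultrafilter ℕ) (𝓝 0) := by
    have := (hcont.tendsto _).comp (h1.inv.mul h2)
    rw [inv_mul_cancel, hν.one] at this
    exact this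
  have hXN : ∀ i, ν (X (1 / N i)) ≤ c / N i := by
    intro i
    have := hXb (1 / N i)
    rw [abs_of_pos (by have := hNpos i; positivity)] at this
    calc _ ≤ _ := this
      _ = c / N i := by ring
  have hdN : ∀ i, d i = c / N i := fun i => by
    rw [eq_div_iff (hNpos i).ne', mul_comm]
    exact hNd i
  have h4 : ∀ i, n i * ν ((k i)⁻¹ * X (1 / N i)) ≤
      KA * ν (((k i) ^ (n i))⁻¹ * (X (1 / N i)) ^ (n i)) := by
    intro i
    refine (A3 (k i) (X (1 / N i)) (n i) ?_).1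
    have e1 : (n i : ℝ) ≤ N i := Nat.floor_le (hNpos i).le
    have e2 : ν (k i) + ν (X (1 / N i)) ≤ 2 * (c / N i) := by
      have := hXN i
      have h5 : ν (k i) = c / N i := hdN i
      linarith
    have e3 : 0 ≤ ν (k i) + ν (X (1 / N i)) := add_nonneg (hnn _) (hnn _)
    calc (n i : ℝ) * (ν (k i) + ν (X (1 / N i))) ≤ N i * (2 * (c / N i)) :=
          mul_le_mul e1 e2 e3 (hNpos i).le
      _ = εA := by
          have := (hNpos i).ne'
          simp only [hc]
          field_simp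
      _ ≤ εA := le_rfl
  have h5 : Tendsto (fun i => N i * ν ((k i)⁻¹ * X (1 / N i))) (hyperfilter ℕ : Ultrafilter ℕ)
      (𝓝 0) := by
    have hb : Tendsto (fun i => 2 * (KA * ν (((k i) ^ (n i))⁻¹ * (X (1 / N i)) ^ (n i))))
        (hyperfilter ℕ : Ultrafilter ℕ) (𝓝 0) := by
      simpa using (h3.const_mul KA).const_mul 2
    refine squeeze_zero' (Eventually.of_forall fun i => mul_nonneg (hNpos i).le (hnn _)) ?_ hb
    filter_upwards [(hNtop.mono_left hF).eventually_ge_atTop 1] with i hi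
    have e1 : N i < n i + 1 := Nat.lt_floor_add_one (N i)
    have e2 : (1 : ℝ) ≤ n i := by
      have : 1 ≤ n i := by
        simp only [hn]
        exact (Nat.one_le_floor_iff (N i)).2 hi
      exact_mod_cast this
    have e3 : N i ≤ 2 * n i := by linarith
    calc N i * ν ((k i)⁻¹ * X (1 / N i)) ≤ (2 * n i) * ν ((k i)⁻¹ * X (1 / N i)) :=
          mul_le_mul_of_nonneg_right e3 (hnn _)
      _ = 2 * (n i * ν ((k i)⁻¹ * X (1 / N i))) := by ring
      _ ≤ _ := mul_le_mul_of_nonneg_left (h4 i) (by norm_num)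
  have hxtF := hxt.mono_left hF
  have h6 : Tendsto (fun i => KL * ‖x i‖ + N i * ν ((k i)⁻¹ * X (1 / N i)) / c)
      (hyperfilter ℕ : Ultrafilter ℕ) (𝓝 0) := by
    simpa using (hxtF.const_mul KL).add (h5.div_const c)
  have h7 : Tendsto (fun i => ‖x i‖ + c / N i) (hyperfilter ℕ : Ultrafilter ℕ) (𝓝 0) := by
    have : Tendsto (fun i => c / N i) (hyperfilter ℕ : Ultrafilter ℕ) (𝓝 0) :=
      (hNtop.mono_left hF).const_div_atTop c
    simpa using hxtF.add this
  obtain ⟨i, hi1, hi2⟩ := ((h6.eventually_lt_const (show (0 : ℝ) < 1 by norm_num)).and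
    (h7.eventually_lt_const hρ0)).exists
  have hwn : ‖(1 / N i) • w‖ ≤ c / N i := by
    rw [norm_smul, Real.norm_of_nonneg (by have := hNpos i; positivity)]
    calc 1 / N i * ‖w‖ ≤ 1 / N i * c :=
          mul_le_mul_of_nonneg_left hwc (by have := hNpos i; positivity)
      _ = c / N i := by ring
  have hyn : ‖x i + (1 / N i) • w‖ ≤ ρ := (norm_add_le _ _).trans (by linarith)
  have hm : ν ((L.ev (x i) 1)⁻¹ * g i) ≤ ν ((L.ev (x i + (1 / N i) • w) 1)⁻¹ * g i) :=
    hxmin i (show x i + (1 / N i) • w ∈ Metric.closedBall (0 : E) ρ by simpa using hyn)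
  have hle := LE (x i) ((1 / N i) • w) (by linarith)
  have hevw : L.ev ((1 / N i) • w) 1 = X (1 / N i) := by rw [L.smul, mul_one, hw]
  rw [hevw] at hle
  have hid : (L.ev (x i + (1 / N i) • w) 1)⁻¹ * g i =
      ((L.ev (x i) 1 * X (1 / N i))⁻¹ * L.ev (x i + (1 / N i) • w) 1)⁻¹ *
        ((k i)⁻¹ * X (1 / N i))⁻¹ := by
    simp only [hk]
    group
  have hb1 := hν.mul ((L.ev (x i) 1 * X (1 / N i))⁻¹ * L.ev (x i + (1 / N i) • w) 1)⁻¹
    ((k i)⁻¹ * X (1 / N i))⁻¹
  rw [← hid, hν.inv, hν.inv] at hb1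
  have hb2 : KL * ‖x i‖ * ‖(1 / N i) • w‖ ≤ KL * ‖x i‖ * d i := by
    rw [hdN i]
    exact mul_le_mul_of_nonneg_left hwn (by positivity)
  have hb3 : ν ((k i)⁻¹ * X (1 / N i)) = N i * ν ((k i)⁻¹ * X (1 / N i)) / c * d i := by
    have e : N i * d i = c := hNd i
    field_simp
    rw [← e]
    ring
  have hb4 : d i ≤ (KL * ‖x i‖ + N i * ν ((k i)⁻¹ * X (1 / N i)) / c) * d i := by
    have : d i ≤ ν ((L.ev (x i + (1 / N i) • w) 1)⁻¹ * g i) := hm
    rw [add_mul, ← hb3]
    linarith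
  have hb5 : (KL * ‖x i‖ + N i * ν ((k i)⁻¹ * X (1 / N i)) / c) * d i < 1 * d i :=
    mul_lt_mul_of_pos_right hi1 (hdpos i)
  linarith

end Pool.Agent.W268.GYB
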